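import Pool.Agent.Q6.Add.Systems

/-!
# MP_e9426e_al : small rational solutions of unit-and-addition systems
-/

namespace Pool.Agent.Results.MP_e9426e_al.RationalBox

/-- For all complex numbers `x 1, ..., x n` there are rationals `y 1, ..., y n` of absolute value
at most `2 ^ (n - 1)` satisfying every equation `y i = 1` and `y i + y j = y k` that `x`
satisfies. -/
theorem result (n : ℕ) (x : Fin n → ℂ) :
    ∃ y : Fin n → ℚ, (∀ i, |y i| ≤ 2 ^ (n - 1)) ∧ (∀ i, x i = 1 → y i = 1) ∧
      ∀ i j k, x i + x j = x k → y i + y j = y k := by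
  by_cases hU : ∃ u0, x u0 = 1
  · obtain ⟨u0, hu0⟩ := hU
    obtain ⟨N, D, hD, hDb, hNb, h1, h2⟩ := Q6.Add.rational_solution {i | x i = 1}
      {t : Fin n × Fin n × Fin n | x t.1 + x t.2.1 = x t.2.2} u0 hu0 x (fun i hi => hi)
      (fun t ht => ht)
    refine ⟨fun j => (N j : ℚ) / D, fun i => ?_, fun i hi => h1 i hi,
      fun i j k h => h2 (i, j, k) h⟩
    have hD1 : (1 : ℚ) ≤ |(D : ℚ)| := by
      have : (1 : ℤ) ≤ |D| := Int.one_le_abs hD
      exact_mod_cast this
    have hN1 : |(N i : ℚ)| ≤ 2 ^ (n - 1) := by exact_mod_cast hNb i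
    show |(N i : ℚ) / D| ≤ 2 ^ (n - 1)
    rw [abs_div]
    exact (div_le_self (abs_nonneg _) hD1).trans hN1
  · push Not at hU
    exact ⟨fun _ => 0, fun i => by simp, fun i hi => absurd hi (hU i), fun i j k _ => by simp⟩

end Pool.Agent.Results.MP_e9426e_al.RationalBox
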